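import Pool.Agent.helper76.LP.Defs
import Pool.Agent.helper58.QR.GA

/-! # QR:DC, decompositions modulo `D` (helper13) -/

namespace Pool.Agent.helper76.LP

open Finset

/-- decomposition when `D = 2 mod 4` -/
theorem dec_two (D : ℕ) [NeZero D] (hD : D % 4 = 2) (f : (ZMod D)ˣ → ℤ)
    (hodd : ∀ x, f (-x) = - f x) : Dec D f := by
  have h2D : 2 ∣ D := by omega
  have h4D : ¬ (2 ^ 2 ∣ D) := by
    intro h
    norm_num at h
    omega
  have hcard : Nat.card (Gam D 2) = 1 := by
    rw [card_Gam D 2 Nat.prime_two h2D, if_neg h4D]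
  have h2m : 2 ∈ D.primeFactors :=
    Nat.mem_primeFactors.2 ⟨Nat.prime_two, h2D, NeZero.ne D⟩
  have htriv : ∀ u ∈ Gam D 2, u = 1 := by
    intro u hu
    have := Nat.card_eq_one_iff_unique.1 hcard
    have hs := this.1
    have h1 : (⟨u, hu⟩ : Gam D 2) = 1 := hs.elim _ _
    exact congrArg Subtype.val h1
  refine ⟨fun p => if p = 2 then f else fun _ => 0, ?_, ?_, ?_, ?_⟩
  · intro p hp u hu x
    by_cases h : p = 2
    · subst h
      rw [htriv u hu, one_mul]
    · simp [h]
  · intro x
    rw [Finset.sum_eq_single_of_mem 2 h2m]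
    · simp
    · intro p _ hp
      simp [hp]
  · intro p _ x
    by_cases h : p = 2
    · subst h
      simpa using hodd x
    · simp [h]
  · rw [Finset.sum_eq_single_of_mem 2 h2m]
    · have hk : kap D 2 = 2 := by
        unfold kap wo
        rw [if_neg h4D, if_neg (by omega)]
        norm_num
      have hw : wo D = 2 := by
        unfold wo
        rw [if_pos hD]
      rw [hk, hw, hcard]
      simp
    · intro p _ hp
      simp [hp]

lemma DC_kap (D p : ℕ) [NeZero D] (hD : D % 4 ≠ 2) (hp : p ∈ D.primeFactors) :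
    kap D p ≤ (om (Nat.card (Gam D p)) : ℤ) := by
  have hpp : p.Prime := Nat.prime_of_mem_primeFactors hp
  have hpD : p ∣ D := Nat.dvd_of_mem_primeFactors hp
  obtain ⟨e, he⟩ := hpD
  have hde : D / p = e := by rw [he]; exact Nat.mul_div_cancel_left _ hpp.pos
  have hwo2 : wo (D / p) ≤ 2 := by unfold wo; split_ifs <;> norm_num
  rw [card_Gam D p hpp ⟨e, he⟩]
  rcases hpp.eq_two_or_odd with rfl | hodd
  · -- p = 2
    have h4 : 2 ^ 2 ∣ D := by
      norm_num
      omega
    rw [if_pos h4]
    unfold kap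
    rw [if_pos h4]
    have : om 2 = 2 := by unfold om; simp
    rw [this]
    push_cast
    linarith
  · have hw1 : wo (D / p) = 1 := by
      unfold wo
      rw [if_neg]
      intro h2
      apply hD
      rw [hde] at h2
      rw [he, Nat.mul_mod, h2]
      have : p % 4 = 1 ∨ p % 4 = 3 := by omega
      rcases this with h | h <;> rw [h]
    unfold kap
    rw [hw1]
    split_ifs with h
    · have : 1 ≤ om p := by unfold om; split_ifs <;> norm_num
      push_cast
      simpa using this
    · have h2 : om (p - 1) = 2 := by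
        unfold om
        rw [if_pos]
        exact ⟨(p - 1) / 2, by omega⟩
      rw [h2]
      norm_num

theorem dec_of_strDec (D : ℕ) [NeZero D] (hD : D % 4 ≠ 2) (f : (ZMod D)ˣ → ℤ)
    (hodd : ∀ x, f (-x) = - f x) (L : List ℕ) (hL : L.Nodup) (hLD : L.toFinset = D.primeFactors)
    (h : StrDec (Gam D) L f) : Dec D f := by
  obtain ⟨N, hN1, hN2, hN3, hN4⟩ := h
  have hmem : ∀ p, p ∈ D.primeFactors ↔ p ∈ L := by
    intro p
    rw [← hLD, List.mem_toFinset]
  have hsum : ∀ {M : Type} [AddCommMonoid M] (F : ℕ → M),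
      ∑ p ∈ D.primeFactors, F p = (L.map F).sum := by
    intro M _ F
    rw [← hLD, List.sum_toFinset F hL]
  refine ⟨N, ?_, ?_, ?_, ?_⟩
  · intro p hp
    exact hN1 p ((hmem p).1 hp)
  · intro x
    rw [hsum]
    exact hN2 x
  · intro p hp x
    have := hN3 (-1) (fun y => by rw [neg_one_mul]; exact hodd y) p ((hmem p).1 hp) x
    rwa [neg_one_mul] at this
  · have hw : wo D = 1 := by
      unfold wo
      rw [if_neg hD]
    rw [hw, Int.cast_one, one_mul]
    refine le_trans ?_ hN4
    rw [← hsum]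
    apply Finset.sum_le_sum
    intro p hp
    have hk := DC_kap D p hD hp
    have hk' : (kap D p : ℚ) ≤ (om (Nat.card (Gam D p)) : ℚ) := by exact_mod_cast hk
    have hs : (0 : ℚ) ≤ ((∑ x, |N p x| : ℤ) : ℚ) := by
      have : (0 : ℤ) ≤ ∑ x, |N p x| := Finset.sum_nonneg fun x _ => abs_nonneg _
      exact_mod_cast this
    exact div_le_div_of_nonneg_right (mul_le_mul_of_nonneg_right hk' hs) (Nat.cast_nonneg _)

end Pool.Agent.helper76.LP
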