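import Pool.Agent.helper13.QR.STc
import Pool.Agent.helper31.QR.KL
import Pool.Agent.helper76.LP.Defs

/-! # QR:ST, the structure theorem (helper13) -/

namespace Pool.Agent.helper76.LP

open Finset

lemma ST_om_le {n : ℕ} (hn : 0 < n) : om n ≤ n := by
  unfold om
  split_ifs with h
  · obtain ⟨k, rfl⟩ := h
    omega
  · omega

theorem structure_thm {G ι : Type*} [CommGroup G] [Fintype G] (Γ : ι → Subgroup G)
    (L : List ι) (hnd : L.Nodup) (hI : Indep Γ L) (f : G → ℤ) (hf : MDv Γ L f)
    (hS : ∀ a, ∀ i ∈ L, ∀ j ∈ L, i ≠ j → 2 * Sl Γ L f a < Nat.card (Γ i) * Nat.card (Γ j)) :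
    StrDec Γ L f := by
  classical
  induction L generalizing f with
  | nil =>
    refine ⟨fun _ _ => 0, ?_, ?_, ?_, ?_⟩
    · intro i hi; simp at hi
    · intro x; simpa using hf x
    · intro e _ i hi; simp at hi
    · simp only [List.map_nil, List.sum_nil]
      have : (0 : ℤ) ≤ ∑ x, |f x| := Finset.sum_nonneg fun x _ => abs_nonneg _
      exact_mod_cast this
  | cons i L ih =>
    have hiL : i ∉ L := (List.nodup_cons.1 hnd).1
    have hndL : L.Nodup := (List.nodup_cons.1 hnd).2
    by_cases hL : L = []
    · subst hL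
      have hinv : ∀ u ∈ Γ i, ∀ x, f (u * x) = f x := by
        intro u hu x
        have := hf u hu x
        exact sub_eq_zero.1 this
      refine ⟨fun _ => f, ?_, ?_, ?_, ?_⟩
      · intro k hk u hu x
        rw [List.mem_singleton] at hk
        subst hk
        exact hinv u hu x
      · intro x; simp
      · intro e he k _ x; exact he x
      · simp only [List.map_cons, List.map_nil, List.sum_cons, List.sum_nil, add_zero]
        have hc : 0 < Nat.card (Γ i) := Nat.card_pos
        have hc' : (0 : ℚ) < (Nat.card (Γ i) : ℚ) := by exact_mod_cast hc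
        have hs : (0 : ℚ) ≤ ((∑ x, |f x| : ℤ) : ℚ) := by
          have : (0 : ℤ) ≤ ∑ x, |f x| := Finset.sum_nonneg fun x _ => abs_nonneg _
          exact_mod_cast this
        have ho : (om (Nat.card (Γ i)) : ℚ) ≤ (Nat.card (Γ i) : ℚ) := by
          exact_mod_cast ST_om_le hc
        rw [div_le_iff₀ hc', mul_comm ((∑ x, |f x| : ℤ) : ℚ)]
        exact mul_le_mul_of_nonneg_right ho hs
    · obtain ⟨ρ, h1, h2, h3, h4, -, h6⟩ := structure_step Γ i L hI hL f hf (by
        intro j hj a
        refine hS a i List.mem_cons_self j (List.mem_cons_of_mem _ hj) ?_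
        rintro rfl
        exact hiL hj)
      refine structure_cons Γ i L hiL f ρ h1 h3 h6 (ih hndL hI.2 _ h2 ?_)
      intro a k hk l hl hkl
      have := hS a k (List.mem_cons_of_mem _ hk) l (List.mem_cons_of_mem _ hl) hkl
      have h5 := h4 a
      omega

end Pool.Agent.helper76.LP
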