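import Pool.Agent.helper76.LP.Defs

/-! # QR:ST, first part: structure_cons (helper13) -/

namespace Pool.Agent.helper76.LP

open Finset

/-- the structure theorem after a first step with a special subgroup -/
theorem structure_cons {G ι : Type*} [CommGroup G] [Fintype G] (Γ : ι → Subgroup G) (i : ι)
    (L : List ι) (hi : i ∉ L) (f ρ : G → ℤ) (h1 : ∀ u ∈ Γ i, ∀ x, ρ (u * x) = ρ x)
    (h3 : ∀ e : G, (∀ x, f (e * x) = - f x) → ∀ x, ρ (e * x) = - ρ x)
    (h6 : ((∑ x, |f x - ρ x| : ℤ) : ℚ) +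
        (om (Nat.card (Γ i)) : ℚ) * ((∑ x, |ρ x| : ℤ) : ℚ) / (Nat.card (Γ i) : ℚ)
          ≤ ((∑ x, |f x| : ℤ) : ℚ))
    (h : StrDec Γ L (fun x => f x - ρ x)) : StrDec Γ (i :: L) f := by
  classical
  obtain ⟨N, hN1, hN2, hN3, hN4⟩ := h
  obtain ⟨N', hi', hL'⟩ : ∃ N' : ι → G → ℤ, N' i = ρ ∧ ∀ k ∈ L, N' k = N k := by
    refine ⟨fun k => if k = i then ρ else N k, by simp, ?_⟩
    intro k hk
    have hki : k ≠ i := by
      rintro rfl
      exact hi hk
    simp [hki]
  refine ⟨N', ?_, ?_, ?_, ?_⟩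
  · intro k hk u hu x
    rcases List.mem_cons.1 hk with rfl | hk
    · rw [hi']; exact h1 u hu x
    · rw [hL' k hk]; exact hN1 k hk u hu x
  · intro x
    have h5 : L.map (fun k => N' k x) = L.map (fun k => N k x) :=
      List.map_congr_left fun k hk => by rw [hL' k hk]
    have h7 := hN2 x
    simp only at h7
    rw [List.map_cons, List.sum_cons, hi', h5, ← h7]
    ring
  · intro e he k hk x
    rcases List.mem_cons.1 hk with rfl | hk
    · rw [hi']; exact h3 e he x
    · rw [hL' k hk]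
      refine hN3 e (fun y => ?_) k hk x
      show f (e * y) - ρ (e * y) = -(f y - ρ y)
      rw [he y, h3 e he y]
      ring
  · have h5 : L.map (fun k => (om (Nat.card (Γ k)) : ℚ) * ((∑ x, |N' k x| : ℤ) : ℚ) /
        (Nat.card (Γ k) : ℚ)) = L.map (fun k => (om (Nat.card (Γ k)) : ℚ) *
        ((∑ x, |N k x| : ℤ) : ℚ) / (Nat.card (Γ k) : ℚ)) :=
      List.map_congr_left fun k hk => by rw [hL' k hk]
    rw [List.map_cons, List.sum_cons, hi', h5]
    linarith

end Pool.Agent.helper76.LP
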